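import Mathlib
import Pool.Agent.H883R3.Filt.Stmts
import Pool.Agent.H883R3.Filt.Basic

/-!
# Filters with maximal stabilizer (MP_60ae12_al): task T2
-/

open Set Cardinal Filter

namespace H883F

universe u

theorem t2 (hT1 : T1.{u}) : T2.{u} := by
  intro Ω _ F hne hP hMin
  -- a negligible set of full size
  obtain ⟨D, hDF, hDc⟩ := hP univ (by rw [Cardinal.mk_univ])
  set D0 : Set Ω := univ \ D with hD0
  have hD0F : D0ᶜ ∈ F := by
    have : D0ᶜ = D := by rw [hD0, ← Set.compl_eq_univ_sdiff, compl_compl]
    rw [this]; exact hDF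
  constructor
  · intro htop
    have h1 : (univ : Set Ω)ᶜ ∈ F := by
      apply negl_of_le hD0F
      · rw [hDc, Cardinal.mk_univ]
      · intro g _
        rw [htop]
        trivial
    rw [Set.compl_univ] at h1
    exact hne.ne (Filter.empty_mem_iff_bot.1 h1)
  · intro M hM
    let K : Set Ω → Prop := fun C => ∀ g : Equiv.Perm Ω, (∀ x ∉ C, g x = x) → g ∈ M
    have K_negl : ∀ X : Set Ω, Xᶜ ∈ F → K X := by
      intro X hX g hg
      exact hM.le (mem_stab_of_supp hX hg)
    have K_mono : ∀ C C' : Set Ω, C' ⊆ C → K C → K C' := by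
      intro C C' hsub hC g hg
      exact hC g (fun x hx => hg x (fun h => hx (hsub h)))
    have K_union : ∀ C₁ C₂ : Set Ω, #↥(C₁ ∩ C₂) = #Ω → K C₁ → K C₂ → K (C₁ ∪ C₂) := by
      intro C₁ C₂ h h1 h2 g hg
      exact hT1 Ω M C₁ C₂ h h1 h2 g hg
    have K_conj : ∀ (C : Set Ω) (g : Equiv.Perm Ω), g ∈ M → K C → K (g '' C) := by
      intro C g hg hC h hh
      have h1 : g⁻¹ * h * g ∈ M := by
        apply hC
        intro x hx
        have : g x ∉ g '' C := by
          rintro ⟨y, hy, hyx⟩
          exact hx (g.injective hyx ▸ hy)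
        have h2 := hh _ this
        rw [Equiv.Perm.mul_apply, Equiv.Perm.mul_apply, h2]
        simp
      have h2 : h = g * (g⁻¹ * h * g) * g⁻¹ := by group
      rw [h2]
      exact M.mul_mem (M.mul_mem hg h1) (M.inv_mem hg)
    have full_of_sub : ∀ A B : Set Ω, A ⊆ B → #↥A = #Ω → #↥B = #Ω := by
      intro A B hAB hA
      apply le_antisymm (Cardinal.mk_set_le B)
      rw [← hA]
      exact Cardinal.mk_le_mk_of_subset hAB
    let L : Set Ω → Prop := fun C => ∀ E : Set Ω, Eᶜ ∈ F → K (C ∪ E)
    have L_negl : ∀ C : Set Ω, Cᶜ ∈ F → L C := by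
      intro C hC E hE
      apply K_negl
      rw [Set.compl_union]
      exact inter_mem hC hE
    have L_mono : ∀ C C' : Set Ω, C' ⊆ C → L C → L C' := by
      intro C C' hsub hC E hE
      exact K_mono _ _ (Set.union_subset_union_left _ hsub) (hC E hE)
    have L_union : ∀ C₁ C₂ : Set Ω, L C₁ → L C₂ → L (C₁ ∪ C₂) := by
      intro C₁ C₂ h1 h2 E hE
      have hE' : (E ∪ D0)ᶜ ∈ F := by
        rw [Set.compl_union]
        exact inter_mem hE hD0F
      have h3 := K_union _ _ (full_of_sub D0 ((C₁ ∪ (E ∪ D0)) ∩ (C₂ ∪ (E ∪ D0)))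
        (fun x hx => ⟨Or.inr (Or.inr hx), Or.inr (Or.inr hx)⟩) hDc) (h1 _ hE') (h2 _ hE')
      apply K_mono _ _ _ h3
      rintro x ((hx | hx) | hx)
      · exact Or.inl (Or.inl hx)
      · exact Or.inr (Or.inl hx)
      · exact Or.inl (Or.inr (Or.inl hx))
    have L_conj : ∀ (C : Set Ω) (g : Equiv.Perm Ω), g ∈ M → L C → L (g '' C) := by
      intro C g hg hC E hE
      have hE' : (E ∪ D0)ᶜ ∈ F := by
        rw [Set.compl_union]
        exact inter_mem hE hD0F
      set X : Set Ω := (g⁻¹ : Equiv.Perm Ω) '' (E ∪ D0) with hX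
      have hKX : K X := K_conj _ _ (M.inv_mem hg) (K_negl _ hE')
      have hXc : #↥X = #Ω := by
        rw [hX, Cardinal.mk_image_eq (Equiv.injective _)]
        exact full_of_sub D0 _ Set.subset_union_right hDc
      obtain ⟨D', hD'F, hD'c⟩ := hP X hXc
      have hX' : (X \ D')ᶜ ∈ F := by
        apply Filter.mem_of_superset hD'F
        intro x hx hx'
        exact hx'.2 hx
      have h1 : K (C ∪ (X \ D')) := hC _ hX'
      have h2 := K_union _ _ (full_of_sub (X \ D') ((C ∪ (X \ D')) ∩ X)
        (fun x hx => ⟨Or.inr hx, hx.1⟩) hD'c) h1 hKX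
      have h3 : K (C ∪ X) := by
        apply K_mono _ _ _ h2
        rintro x (hx | hx)
        · exact Or.inl (Or.inl hx)
        · exact Or.inr hx
      have h4 := K_conj _ _ hg h3
      apply K_mono _ _ _ h4
      rw [Set.image_union, hX, ← Set.image_comp]
      have h5 : (⇑g ∘ ⇑(g⁻¹ : Equiv.Perm Ω)) = id := by
        funext x
        simp
      rw [h5, Set.image_id]
      exact Set.union_subset_union_right _ Set.subset_union_left
    by_cases hLu : L univ
    · rw [eq_top_iff]
      intro g _
      have h1 := hLu D0 hD0F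
      exact h1 g (fun x hx => absurd (Or.inl (mem_univ x)) hx)
    · exfalso
      let G : Filter Ω :=
        { sets := {D | L Dᶜ}
          univ_sets := by
            change L (univᶜ)
            apply L_negl
            rw [compl_compl]
            exact univ_mem
          sets_of_superset := by
            intro A B hA hAB
            exact L_mono _ _ (Set.compl_subset_compl.2 hAB) hA
          inter_sets := by
            intro A B hA hB
            change L ((A ∩ B)ᶜ)
            rw [Set.compl_inter]
            exact L_union _ _ hA hB }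
      have hG : ∀ D : Set Ω, D ∈ G ↔ L Dᶜ := fun D => Iff.rfl
      have hGne : G.NeBot := by
        constructor
        intro h
        apply hLu
        have : (∅ : Set Ω) ∈ G := by rw [h]; exact Filter.mem_bot
        rw [hG, Set.compl_empty] at this
        exact this
      have hGF : G ≤ F := by
        intro D hD
        rw [hG]
        apply L_negl
        rw [compl_compl]
        exact hD
      have hMG : M ≤ stab G := by
        intro g hg
        rw [mem_stab_iff]
        intro D
        rw [hG, hG, ← Set.preimage_compl]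
        constructor
        · intro h
          have := L_conj _ _ hg h
          rwa [Set.image_preimage_eq _ g.surjective] at this
        · intro h
          have := L_conj _ _ (M.inv_mem hg) h
          have h6 : (⇑(g⁻¹ : Equiv.Perm Ω)) '' Dᶜ = g ⁻¹' Dᶜ := by
            ext x
            constructor
            · rintro ⟨y, hy, rfl⟩
              simpa using hy
            · intro hx
              exact ⟨g x, hx, by simp⟩
          rwa [h6] at this
      have hEq := hMin G hGne hGF (hM.le.trans hMG)
      rw [hEq] at hMG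
      exact absurd hMG (not_le_of_gt hM)

end H883F
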